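import Pool.Agent.Y969.SM.Res
import Pool.Agent.Y969.SM.Fin
import Pool.Agent.Y969.SM.Win
import Pool.Agent.Y901.SX.A1
import Pool.Agent.Y54.SX.A2
import Pool.Agent.Y81.SX.AAP
import Pool.Agent.Y76.SX.ARI
import Pool.Agent.Y369.SX.Ars
import Pool.Agent.Y604.SX.AS
import Pool.Agent.Y780.SX.Blk
import Pool.Agent.Y620.SX.CRA
import Pool.Agent.Y77.SX.CTW
import Pool.Agent.Y978.SX.EUL
import Pool.Agent.Y983.SX.EUT
import Pool.Agent.Y360.SX.F8
import Pool.Agent.Y739.SX.FA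
import Pool.Agent.Y429.SX.FB
import Pool.Agent.Y781.SX.LB
import Pool.Agent.Y852.SX.Loc
import Pool.Agent.Y686.SX.Lsm
import Pool.Agent.Y547.SX.Min
import Pool.Agent.Y812.SX.OMX
import Pool.Agent.Y953.SX.Ort
import Pool.Agent.Y475.SX.SHP
import Pool.Agent.Y81.SX.T0
import Pool.Agent.Y670.SX.TAY
import Pool.Agent.Y293.SX.TL2
import Pool.Agent.Y726.SX.TWC
import Pool.Agent.Y4.SX.UB
import Pool.Agent.Y809.SX.UB0
import Pool.Agent.Y246.SX.W1
import Pool.Agent.Y448.SX.W2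
import Pool.Agent.Y514.SX.ZE
import Pool.Agent.Y96.SX.ZM
import Pool.Agent.TH806.N4.Abs
import Pool.Agent.TH384.N4_FM
import Pool.Agent.Y379.GP.Sp
import Pool.Agent.Y125.GP.LSW
import Pool.Agent.Y545.GP.CR
import Pool.Agent.Y587.GP.V
import Pool.Agent.Y587.GP.Chi
import Pool.Agent.Y891.GP.AFE
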