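import Pool.Agent.TH321.GF.AQ
import Pool.Agent.TH740.GF.VQ
import Pool.Agent.TH928.GS.MV
import Pool.Agent.Y969.GP.Def

set_option autoImplicit false

/-!
The second moment of zeta on the critical line, upper bound of the right order, from the approximation by the
partial sum of length about `2T` and the mean value theorem.
-/

namespace Pool.Agent.L5helper97.SXA

open Complex Filter Topology MeasureTheory Set
open Pool.Agent.TH612.GS (z zN PN)

lemma z_cont : Continuous z := by
  unfold z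
  refine continuous_iff_continuousAt.2 fun u => ?_
  have h1 : (1 / 2 + I * (u : ℂ)) ≠ 1 := by
    intro h
    have := congrArg Complex.re h
    norm_num at this
  have h2 := (differentiableAt_riemannZeta h1).continuousAt
  exact ContinuousAt.comp (f := fun u : ℝ => (1 / 2 + I * (u : ℂ))) h2 (by fun_prop)

lemma PN_cont (N : ℕ) : Continuous (PN N) := by
  unfold PN zN
  refine continuous_finsetSum _ fun n hn => ?_
  have hn0 : (n : ℂ) ≠ 0 := by
    have := (Finset.mem_Icc.1 hn).1
    exact_mod_cast (by omega : n ≠ 0)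
  exact Continuous.const_cpow (by fun_prop) (Or.inl hn0)

lemma int_inv_sq {L : ℝ} (hL : 0 ≤ L) : ∫ u in (0:ℝ)..L, (1 / (1 + u)) ^ 2 ≤ 1 := by
  have hFTC : ∫ u in (0:ℝ)..L, (1 / (1 + u)) ^ 2 = (-(1 / (1 + L))) - (-(1 / (1 + 0))) := by
    apply intervalIntegral.integral_eq_sub_of_hasDerivAt (f := fun u : ℝ => -(1 / (1 + u)))
    · intro u hu
      rw [uIcc_of_le hL] at hu
      have hu1 : 1 + u ≠ 0 := by linarith [hu.1]
      have d1 : HasDerivAt (fun u : ℝ => 1 + u) 1 u := (hasDerivAt_id u).const_add 1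
      have d2 := (d1.inv hu1).neg
      have e : (fun u : ℝ => -(1 / (1 + u))) = fun u : ℝ => -((1 + u)⁻¹) := by
        funext v; rw [one_div]
      rw [e]
      refine d2.congr_deriv ?_
      field_simp
    · apply ContinuousOn.intervalIntegrable
      rw [uIcc_of_le hL]
      apply ContinuousOn.pow
      apply ContinuousOn.div continuousOn_const (continuousOn_const.add continuousOn_id)
      intro u hu
      have h0 : (0 : ℝ) ≤ u := hu.1
      exact ne_of_gt (show (0 : ℝ) < 1 + u by linarith)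
  rw [hFTC]
  have : 0 < 1 / (1 + L) := by positivity
  norm_num
  linarith [this, one_div (1 + L)]

/-- the second moment for large `T` -/
theorem second_large : ∃ C T₀ : ℝ, 0 < C ∧ 3 ≤ T₀ ∧ ∀ T : ℝ, T₀ ≤ T →
    ∫ u in (0:ℝ)..(2 * T), ‖z u‖ ^ 2 ≤ C * T * Real.log T := by
  obtain ⟨C, T₀, hC, hT₀, h⟩ := Pool.Agent.TH740.GF.t_VQ Pool.Agent.TH928.GS.t_MV
  refine ⟨3 * C + 200, max 3 T₀, by positivity, le_max_left _ _, fun T hT => ?_⟩
  have hT3 : 3 ≤ T := (le_max_left _ _).trans hT
  have hT0 : T₀ ≤ T := (le_max_right _ _).trans hT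
  have hTp : 0 < T := by linarith
  have hlog : 1 ≤ Real.log T := by
    rw [Real.le_log_iff_exp_le hTp]
    have := Real.exp_one_lt_d9
    linarith
  set X : ℕ := ⌈2 * T⌉₊ with hX
  have hX1 : 2 * T ≤ X := Nat.le_ceil _
  have hX2 : (X : ℝ) ≤ 4 * T := by
    have := (Nat.ceil_lt_add_one (show 0 ≤ 2 * T by linarith)).le
    rw [← hX] at this
    linarith
  have hXpos : (0:ℝ) < X := by linarith
  have hX1' : 1 ≤ X := by
    have : 0 < X := by exact_mod_cast hXpos
    omega
  have hPN := h T X hT0 hX1' hX2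
  have hpt : ∀ u ∈ Icc (0:ℝ) (2 * T), ‖z u‖ ^ 2 ≤ 3 * ‖PN X u‖ ^ 2 +
      (108 * T * (1 / (1 + u)) ^ 2 + 4) := by
    intro u hu
    have hu1 : 0 < 1 + u := by linarith [hu.1]
    have key : ∀ v : ℝ, 0 < v → v ≤ X → ‖z v‖ ≤ ‖PN X v‖ + 3 * Real.sqrt X / (1 + v) + 3 / (2 * Real.sqrt X) := by
      intro v hv hvX
      have h1 := Pool.Agent.TH321.GF.AQ_pw v X hX1' hv hvX
      have h2 : ‖z v‖ ≤ ‖PN X v‖ + ‖z v - PN X v‖ := by
        have := norm_add_le (PN X v) (z v - PN X v)
        simpa using this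
      linarith
    -- by continuity also at zero
    have key0 : ‖z u‖ ≤ ‖PN X u‖ + 3 * Real.sqrt X / (1 + u) + 3 / (2 * Real.sqrt X) := by
      rcases hu.1.eq_or_lt with h0 | h0
      · rw [← h0]
        have c1 : Tendsto (fun v : ℝ => ‖z v‖) (𝓝[>] 0) (𝓝 ‖z 0‖) :=
          (z_cont.norm.tendsto 0).mono_left nhdsWithin_le_nhds
        have c2 : Tendsto (fun v : ℝ => ‖PN X v‖ + 3 * Real.sqrt X / (1 + v) + 3 / (2 * Real.sqrt X))
            (𝓝[>] 0) (𝓝 (‖PN X 0‖ + 3 * Real.sqrt X / (1 + 0) + 3 / (2 * Real.sqrt X))) := by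
          refine Tendsto.mono_left ?_ nhdsWithin_le_nhds
          refine ((((PN_cont X).norm.tendsto 0).add ?_)).add tendsto_const_nhds
          refine Tendsto.div tendsto_const_nhds ?_ (by norm_num)
          exact (continuous_const.add continuous_id).tendsto 0
        refine le_of_tendsto_of_tendsto c1 c2 ?_
        have hev : ∀ᶠ v : ℝ in 𝓝[>] 0, v ≤ X := by
          refine Filter.Eventually.filter_mono nhdsWithin_le_nhds ?_
          exact eventually_le_nhds (by simpa using hXpos)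
        filter_upwards [self_mem_nhdsWithin, hev] with v hv hvX
        exact key v hv hvX
      · exact key u h0 (hu.2.trans hX1)
    have hs2 : Real.sqrt X ^ 2 = X := Real.sq_sqrt hXpos.le
    have hs0 : 0 < Real.sqrt X := Real.sqrt_pos.2 hXpos
    have n1 : 0 ≤ ‖PN X u‖ := norm_nonneg _
    have n2 : 0 ≤ 3 * Real.sqrt X / (1 + u) := by positivity
    have n3 : 0 ≤ 3 / (2 * Real.sqrt X) := by positivity
    have e1 : ‖z u‖ ^ 2 ≤ (‖PN X u‖ + 3 * Real.sqrt X / (1 + u) + 3 / (2 * Real.sqrt X)) ^ 2 :=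
      pow_le_pow_left₀ (norm_nonneg _) key0 2
    have e2 : (‖PN X u‖ + 3 * Real.sqrt X / (1 + u) + 3 / (2 * Real.sqrt X)) ^ 2 ≤
        3 * ‖PN X u‖ ^ 2 + 3 * (3 * Real.sqrt X / (1 + u)) ^ 2 + 3 * (3 / (2 * Real.sqrt X)) ^ 2 := by
      nlinarith [sq_nonneg (‖PN X u‖ - 3 * Real.sqrt X / (1 + u)), sq_nonneg (‖PN X u‖ - 3 / (2 * Real.sqrt X)),
        sq_nonneg (3 * Real.sqrt X / (1 + u) - 3 / (2 * Real.sqrt X))]
    have e3 : 3 * (3 * Real.sqrt X / (1 + u)) ^ 2 = 27 * X * (1 / (1 + u)) ^ 2 := by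
      rw [div_pow, mul_pow, hs2, div_pow, one_pow]; ring
    have e4 : 3 * (3 / (2 * Real.sqrt X)) ^ 2 ≤ 4 := by
      rw [div_pow, mul_pow, hs2]
      rw [mul_div_assoc', div_le_iff₀ (by positivity)]
      nlinarith
    have e5 : 27 * X * (1 / (1 + u)) ^ 2 ≤ 108 * T * (1 / (1 + u)) ^ 2 := by
      refine mul_le_mul_of_nonneg_right ?_ (by positivity)
      linarith
    linarith
  have hcz : Continuous fun u : ℝ => ‖z u‖ ^ 2 := z_cont.norm.pow 2
  have hcP : Continuous fun u : ℝ => 3 * ‖PN X u‖ ^ 2 := ((PN_cont X).norm.pow 2).const_mul 3 |>.congr (fun _ => rfl)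
  have hcr : ContinuousOn (fun u : ℝ => 108 * T * (1 / (1 + u)) ^ 2 + 4) (Icc 0 (2 * T)) := by
    apply ContinuousOn.add _ continuousOn_const
    apply ContinuousOn.mul continuousOn_const
    apply ContinuousOn.pow
    apply ContinuousOn.div continuousOn_const (continuousOn_const.add continuousOn_id)
    intro u hu
    have h0 : (0 : ℝ) ≤ u := hu.1
    exact ne_of_gt (show (0 : ℝ) < 1 + u by linarith)
  have hTT : (0:ℝ) ≤ 2 * T := by linarith
  have hi1 : IntervalIntegrable (fun u : ℝ => 3 * ‖PN X u‖ ^ 2) volume 0 (2 * T) := hcP.intervalIntegrable _ _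
  have hi2 : IntervalIntegrable (fun u : ℝ => 108 * T * (1 / (1 + u)) ^ 2 + 4) volume 0 (2 * T) :=
    ContinuousOn.intervalIntegrable (by rwa [uIcc_of_le hTT])
  have hmono := intervalIntegral.integral_mono_on hTT (hcz.intervalIntegrable _ _) (hi1.add hi2) hpt
  refine hmono.trans ?_
  have hi3 : IntervalIntegrable (fun u : ℝ => 108 * T * (1 / (1 + u)) ^ 2) volume 0 (2 * T) := by
    have := hi2.sub (intervalIntegrable_const (c := (4:ℝ)))
    refine this.congr ?_
    intro u _
    simp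
  rw [intervalIntegral.integral_add hi1 hi2, intervalIntegral.integral_add hi3 intervalIntegrable_const,
    intervalIntegral.integral_const_mul, intervalIntegral.integral_const_mul, intervalIntegral.integral_const]
  have hI := int_inv_sq hTT
  have t1 : 108 * T * ∫ u in (0:ℝ)..(2 * T), (1 / (1 + u)) ^ 2 ≤ 108 * T * 1 :=
    mul_le_mul_of_nonneg_left hI (by positivity)
  have t2 : T ≤ T * Real.log T := le_mul_of_one_le_right hTp.le hlog
  simp only [sub_zero, smul_eq_mul]
  nlinarith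

theorem t_SM : Pool.Agent.Y969.GP.S_SM := by
  obtain ⟨C, T₀, hC, hT₀, h⟩ := second_large
  set B : ℝ := ∫ u in (0:ℝ)..(2 * T₀), ‖z u‖ ^ 2 with hB
  have hB0 : 0 ≤ B := by
    rw [hB]
    exact intervalIntegral.integral_nonneg (by linarith) fun _ _ => by positivity
  have hff : ∀ T : ℝ, ∫ u in (0:ℝ)..(2 * T), Pool.Agent.Y969.GP.ff u = ∫ u in (0:ℝ)..(2 * T), ‖z u‖ ^ 2 :=
    fun T => rfl
  have hl2 : 0 < Real.log 2 := Real.log_pos (by norm_num)
  refine ⟨C + B / (2 * Real.log 2), by positivity, fun T hT => ?_⟩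
  rw [hff]
  have hTp : 0 < T := by linarith
  have hlog2 : Real.log 2 ≤ Real.log T := Real.log_le_log (by norm_num) hT
  have hlT : 0 < Real.log T := hl2.trans_le hlog2
  rcases le_total T₀ T with h1 | h1
  · refine (h T h1).trans ?_
    have : 0 ≤ B / (2 * Real.log 2) * (T * Real.log T) := by positivity
    nlinarith
  · have hmono : ∫ u in (0:ℝ)..(2 * T), ‖z u‖ ^ 2 ≤ B := by
      rw [hB]
      refine intervalIntegral.integral_mono_interval le_rfl (by linarith) (by linarith) ?_ ?_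
      · exact ae_of_all _ fun u => by positivity
      · exact (z_cont.norm.pow 2).intervalIntegrable _ _
    have h3 : 2 * Real.log 2 ≤ T * Real.log T := by
      calc 2 * Real.log 2 ≤ T * Real.log 2 := by gcongr
        _ ≤ T * Real.log T := by gcongr
    have h4 : B ≤ B / (2 * Real.log 2) * (T * Real.log T) := by
      calc B = B / (2 * Real.log 2) * (2 * Real.log 2) := by field_simp
        _ ≤ _ := by gcongr
    have h5 : 0 ≤ C * (T * Real.log T) := by positivity
    nlinarith

end Pool.Agent.L5helper97.SXA
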