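import Pool.Agent.L5helper97.SXA.Asm
import Pool.Agent.L5helper97.SXA.SecM

set_option autoImplicit false

/-! The assembly of project SX. -/

namespace Pool.Agent.L5helper97.SXA

open Filter Topology MeasureTheory
open Pool.Agent.Y969.SM
open Pool.Agent.H306R2.SM (om cl Yf)
open Pool.Agent.H262R4.TM (Rng Ck)

theorem exists_k : ∃ k : ℕ, 2 ≤ k ∧ S_FA k := by
  obtain ⟨k₀, h⟩ := Pool.Agent.Y739.SX.t_FA
  exact ⟨max k₀ 2, le_max_right _ _, h _ (le_max_left _ _)⟩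

theorem fa5 {k : ℕ} (h : S_FA k) : ∀ᶠ T : ℝ in atTop, ∀ κ : ℕ, Rng T κ →
    ∫ t in Set.Ioi (0:ℝ), om κ (κ / T) t * |F0 k T t| ≤ Real.log T ^ 5 ∧
    IntegrableOn (fun t => om κ (κ / T) t * |F0 k T t|) (Set.Ioi 0) := by
  obtain ⟨C, hC, h⟩ := h
  filter_upwards [h, Real.tendsto_log_atTop.eventually_ge_atTop C,
    Real.tendsto_log_atTop.eventually_ge_atTop 0] with T hT hTC hT0 κ hκ
  obtain ⟨-, h2, -, -, h5, -⟩ := hT κ hκ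
  refine ⟨h5.trans ?_, h2⟩
  calc C * Real.log T ^ 4 ≤ Real.log T * Real.log T ^ 4 := by gcongr
    _ = _ := by ring

theorem fa4 {k : ℕ} (h : S_FA k) : ∃ C : ℝ, 0 < C ∧ ∀ᶠ T : ℝ in atTop, ∀ κ : ℕ, Rng T κ →
    ∫ t in Set.Ioi (0:ℝ), om κ (κ / T) t * Xz t ^ 4 ≤ C * Real.log T ^ 4 := by
  obtain ⟨C, hC, h⟩ := h
  exact ⟨C, hC, h.mono fun T hT κ hκ => (hT κ hκ).2.2.2.2.2⟩

theorem all : S_MAIN ∧ S_REL ∧ S_AA := by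
  obtain ⟨k, hk, hFA⟩ := exists_k
  have hF8 : S_F8 := Pool.Agent.Y360.SX.t_F8
  have hFB : S_FB k := Pool.Agent.Y429.SX.t_FB hF8 k hk
  have hSM := t_SM
  have hV : Pool.Agent.Y969.GP.S_V := Pool.Agent.Y587.GP.t_V
  have hSP : Pool.Agent.Y969.GP.S_SP := Pool.Agent.Y379.GP.t_SP
  have hORT : S_ORT := Pool.Agent.Y953.SX.t_ORT hSP
  have hLSW : Pool.Agent.Y969.GP.S_LSW := Pool.Agent.Y125.GP.t_LSW hSP
  have hCR : Pool.Agent.Y969.GP.S_CR := Pool.Agent.Y545.GP.t_CR hV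
  have hAFE : Pool.Agent.Y969.GP.S_AFE := Pool.Agent.Y891.GP.t_AFE hV Pool.Agent.Y587.GP.Chi.t_CHI
  have hARI : S_ARI := Pool.Agent.Y76.SX.t_ARI
  have hW2B : S_W2B := Pool.Agent.Y76.SX.t_W2B
  have hLOC : S_LOC := Pool.Agent.Y852.SX.t_LOC
  have hTWC : S_TWC := Pool.Agent.Y726.SX.t_TWC
  have hFM : Pool.Agent.TH806.N4.P_FM := Pool.Agent.TH384.N4_FM.t_FM
  have hAS : S_AS := Pool.Agent.Y604.SX.t_AS hTWC hFM Pool.Agent.TH806.N4.a_ING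
    Pool.Agent.Y901.SX.t_A1 Pool.Agent.Y54.SX.t_A2 ⟨k, hk, hFA⟩
  have hUB0 : S_UB0 k := Pool.Agent.Y809.SX.t_UB0 hTWC hFM Pool.Agent.Y369.SX.t_ARS k hk
  have hUB : S_UB k := Pool.Agent.Y4.SX.t_UB k hUB0 hFB
  have hW1 : S_W1 k := Pool.Agent.Y246.SX.t_W1 k hFA hFB hSM
  have hW2 : S_W2 k := Pool.Agent.Y448.SX.t_W2 k hFB (fa5 hFA) hAFE hSM
  have hMIN : S_MIN k := Pool.Agent.Y547.SX.t_MIN k Pool.Agent.Y780.SX.t_BLK hFB (fa5 hFA) hLSW hCR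
  have hTAY : S_TAY k := Pool.Agent.Y670.SX.t_TAY k (Pool.Agent.Y620.SX.t_CRA hV) Pool.Agent.Y812.SX.t_OMX hORT hFA hFB
  have hTL2 : S_TL2 k := Pool.Agent.Y293.SX.t_TL2 k hUB hORT hARI hFB
  have hT0 : S_T0 k := Pool.Agent.Y81.SX.T0.t_T0 k hUB hAS hFA hORT hARI hW2B hFB
  have hCTW : S_CTW := Pool.Agent.Y77.SX.t_CTW
  have hWIN : S_WIN := t_WIN k hFB hW1 hW2 hMIN hTAY hTL2 hT0 hCTW hV
  have hSHP : S_SHP := Pool.Agent.Y475.SX.t_SHP hSM hCTW (fa4 hFA)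
  have hEUT : S_EUT := Pool.Agent.Y983.SX.EUT.t_EUT Pool.Agent.Y686.SX.t_LSM
  have hEUL : S_EUL := Pool.Agent.Y978.SX.t_EUL hLOC hEUT hORT hARI hW2B
  have hMAIN : S_MAIN := t_MAIN hWIN hSHP hEUL hCTW
  have hAA : S_AA := Pool.Agent.Y81.SX.AAP.t_AA hLOC
  have hZE : S_ZE := Pool.Agent.Y514.SX.t_ZE hAA Pool.Agent.Y96.SX.t_ZM
  have hLB : S_LB := Pool.Agent.Y781.SX.t_LB hLOC
  exact ⟨hMAIN, t_REL hMAIN hLB hZE, hAA⟩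

end Pool.Agent.L5helper97.SXA
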